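import Pool.Agent.V5helper9.ChrGeo

set_option autoImplicit false

/-- Every chromatic root `z` of a graph of maximum degree `Δ ≥ 2` satisfies
`|z - 1| < 3.76 (Δ - 1)`. -/
theorem Pool.Agent.Results.MP_74a55f_co.Constant376.result :
    ∀ (n : ℕ) (G : SimpleGraph (Fin n)) [DecidableRel G.Adj] (P : Polynomial ℂ),
      (∀ k : ℕ, P.eval (k : ℂ) = (Nat.card (G.Coloring (Fin k)) : ℂ)) → 2 ≤ G.maxDegree →
      ∀ z : ℂ, P.IsRoot z → ‖z - 1‖ < 94 / 25 * ((G.maxDegree : ℝ) - 1) := by
  intro n G _ P hP hΔ z hz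
  have hn : 0 < n := by
    rcases Nat.eq_zero_or_pos n with hn | hn
    · subst hn
      exfalso
      have h : G.maxDegree = 0 := by
        unfold SimpleGraph.maxDegree
        simp
      omega
    · exact hn
  have h := Pool.Agent.V5helper9.Chr.root_general G (G.maxDegree - 1) (by omega) (by omega) P hP
    ⟨0, hn⟩ z hz
  rw [Nat.cast_sub (by omega), Nat.cast_one] at h
  exact h
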