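import Pool.Agent.V5helper9.ChrGeo

set_option autoImplicit false

/-- Sokal's bound `|z| ≤ 2Δ` for the chromatic roots of every graph of maximum degree `Δ ≤ 3`. -/
theorem Pool.Agent.Results.MP_74a55f_co.MaxDegreeThree.result :
    ∀ (n : ℕ) (G : SimpleGraph (Fin n)) [DecidableRel G.Adj] (P : Polynomial ℂ),
      (∀ k : ℕ, P.eval (k : ℂ) = (Nat.card (G.Coloring (Fin k)) : ℂ)) → G.maxDegree ≤ 3 →
      ∀ z : ℂ, P.IsRoot z → ‖z‖ ≤ 2 * (G.maxDegree : ℝ) :=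
  fun _ G _ P hP hΔ z hz => Pool.Agent.V5helper9.Chr.sokal_le_three G hΔ P hP z hz
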